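import Mathlib

/-!
Codes of length `q + 2` and redundancy four over an alphabet of even size `q`.
-/

open Finset Function

namespace Pool.Agent.Lib.MP_deca50_lc

variable {K A : Type} [Fintype K] [DecidableEq K] [Fintype A] [DecidableEq A] {C : Set (K → A)}

/-- Some codeword agrees with `x` outside the positions `i, j, l`. -/
def Near (C : Set (K → A)) (x : K → A) (i j l : K) : Prop :=
  ∃ c ∈ C, ∀ m, m ≠ i → m ≠ j → m ≠ l → c m = x m

/-- The pair `i, j` lies in no triple of positions on which `x` can be corrected. -/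
def Edge (C : Set (K → A)) (x : K → A) (i j : K) : Prop := ∀ l, ¬Near C x i j l

structure Mds (C : Set (K → A)) : Prop where
  uniq : ∀ c ∈ C, ∀ c' ∈ C, ∀ a b d e, (∀ m, m ≠ a → m ≠ b → m ≠ d → m ≠ e → c m = c' m) → c = c'
  ex : ∀ (x : K → A) a b d e, ∃ c ∈ C, a ≠ b → a ≠ d → a ≠ e → b ≠ d → b ≠ e → d ≠ e →
    ∀ m, m ≠ a → m ≠ b → m ≠ d → m ≠ e → c m = x m
  card : Fintype.card K = Fintype.card A + 2

omit [Fintype K] [DecidableEq K] [Fintype A] [DecidableEq A] in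
lemma Near.rot {x : K → A} {i j l : K} (h : Near C x i j l) : Near C x j l i :=
  let ⟨c, hc, h⟩ := h; ⟨c, hc, fun m h1 h2 h3 => h m h3 h1 h2⟩

omit [Fintype K] [DecidableEq K] [Fintype A] [DecidableEq A] in
lemma Near.swap {x : K → A} {i j l : K} (h : Near C x i j l) : Near C x i l j :=
  let ⟨c, hc, h⟩ := h; ⟨c, hc, fun m h1 h2 h3 => h m h1 h3 h2⟩

lemma card_three {i j k : K} (h1 : i ≠ j) (h2 : i ≠ k) (h3 : j ≠ k) :
    (univ \ {i, j, k} : Finset K).card + 3 = Fintype.card K := by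
  rw [← card_eq_three.2 ⟨i, j, k, h1, h2, h3, rfl⟩, card_sdiff_add_card_eq_card (subset_univ _),
    card_univ]

lemma Mds.edge_unique (H : Mds C) {x : K → A} {i j k : K} (h1 : i ≠ j) (h2 : i ≠ k) (h3 : j ≠ k)
    {a b : A} (ha : Edge C (update x k a) i j) (hb : Edge C (update x k b) i j) : a = b := by
  by_contra hab
  choose c hc h4 using fun l => H.ex x i j k l
  have h5 : ∀ l ∈ (univ \ {i, j, k} : Finset K), ∀ m, m ≠ i → m ≠ j → m ≠ k → m ≠ l →
      c l m = x m := fun l hl => by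
    simp only [mem_sdiff, mem_univ, mem_insert, mem_singleton, true_and, not_or] at hl
    exact h4 l h1 h2 (Ne.symm hl.1) h3 (Ne.symm hl.2.1) (Ne.symm hl.2.2)
  have h6 : ∀ l ∈ (univ \ {i, j, k} : Finset K), ∀ e, Edge C (update x k e) i j → c l k ≠ e :=
    fun l hl e he h => he l ⟨c l, hc l, fun m m1 m2 m3 => by
      by_cases hm : m = k
      · rw [hm, update_self, h]
      · rw [update_of_ne hm, h5 l hl m m1 m2 hm m3]⟩
  have h7 := card_le_card_of_injOn (t := univ \ {a, b}) (fun l => c l k)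
    (fun l hl => by simp [h6 l hl a ha, h6 l hl b hb]) fun l hl l' hl' h => by
      by_contra hne
      have h8 : c l = c l' := H.uniq _ (hc l) _ (hc l') i j l l' fun m m1 m2 m3 m4 => by
        by_cases hm : m = k
        · rw [hm]; exact h
        · rw [h5 l hl m m1 m2 hm m3, h5 l' hl' m m1 m2 hm m4]
      refine ha k ⟨c l, hc l, fun m m1 m2 m3 => ?_⟩
      rw [update_of_ne m3]
      by_cases hm : m = l
      · rw [h8]; exact h5 l' hl' m m1 m2 m3 (hm ▸ hne)
      · exact h5 l hl m m1 m2 m3 hm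
  have h8 := card_sdiff_add_card_eq_card (subset_univ ({a, b} : Finset A))
  rw [card_pair hab, card_univ] at h8
  have := card_three h1 h2 h3
  have := H.card
  omega

omit [DecidableEq A] in
lemma Mds.partner (H : Mds C) {x : K → A} {i j l l' : K} (h : ¬Near C x i j j)
    (h1 : Near C x i j l) (h2 : Near C x i j l') : l = l' := by
  obtain ⟨c, hc, h1⟩ := h1
  obtain ⟨c', hc', h2⟩ := h2
  obtain rfl := H.uniq c hc c' hc' i j l l' fun m m1 m2 m3 m4 => by rw [h1 m m1 m2 m3, h2 m m1 m2 m4]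
  by_contra hne
  refine h ⟨c, hc, fun m m1 m2 _ => ?_⟩
  by_cases hm : m = l
  · exact h2 m m1 m2 (hm ▸ hne)
  · exact h1 m m1 m2 hm

lemma dvd_card_of_free {α : Type} [DecidableEq α] {p : ℕ} (hp : p.Prime) (s : Finset α) (f : α → α)
    (h1 : ∀ a ∈ s, f a ∈ s) (h2 : ∀ a ∈ s, f^[p] a = a) (h3 : ∀ a ∈ s, f a ≠ a) : p ∣ s.card := by
  have := Fact.mk hp
  have h := Equiv.Perm.card_fixedPoints_modEq (p := p) (n := 1)
    (f := (fun a => ⟨f a, h1 a a.2⟩ : s → s)) (by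
      funext a
      have h4 : ∀ k, (((fun a => ⟨f a, h1 a a.2⟩ : s → s)^[k] a : s) : α) = f^[k] a := fun k => by
        induction k with
        | zero => rfl
        | succ k ih => rw [iterate_succ_apply', iterate_succ_apply', ← ih]
      rw [pow_one]
      exact Subtype.ext ((h4 p).trans (h2 a a.2)))
  rw [Fintype.card_coe, Fintype.card_eq_zero_iff.2 ⟨fun a => h3 _ a.1.2 (congrArg Subtype.val a.2)⟩]
    at h
  exact Nat.modEq_zero_iff_dvd.1 h

omit [DecidableEq A] in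
lemma Mds.exists_edge (H : Mds C) (hq : Even (Fintype.card A)) {x : K → A} {i : K}
    (h : ∀ j, ¬Near C x i j j) : ∃ k, k ≠ i ∧ Edge C x i k := by
  by_contra! hc
  simp only [Edge, not_forall, not_not] at hc
  choose! f hf using hc
  have h1 : ∀ j, j ≠ i → f j ≠ i := fun j hj h2 => by
    obtain ⟨c, hc, h3⟩ := hf j hj
    exact h j ⟨c, hc, fun m m1 m2 _ => h3 m m1 m2 (h2 ▸ m1)⟩
  have h2 := dvd_card_of_free Nat.prime_two (univ.erase i) f
    (fun j hj => by simpa using h1 j (ne_of_mem_erase hj))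
    (fun j hj => H.partner (h _) (hf _ (h1 j (ne_of_mem_erase hj))) (hf j (ne_of_mem_erase hj)).swap)
    fun j hj h3 => h j (by simpa [h3] using hf j (ne_of_mem_erase hj))
  rw [card_erase_of_mem (mem_univ _), card_univ, H.card] at h2
  obtain ⟨r, hr⟩ := hq
  omega

lemma Mds.one_edge (H : Mds C) (hq : Even (Fintype.card A)) {x : K → A} {i j l : K}
    (h : ∀ j, ¬Near C x i j j) (h0 : Near C x i j l) {k k' : K} (hk : k ≠ i) (hk' : k' ≠ i)
    (e : Edge C x i k) (e' : Edge C x i k') : k = k' := by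
  obtain ⟨c, hc, h1⟩ := h0
  have hl : c l ≠ x l := fun h2 => h j ⟨c, hc, fun m m1 m2 _ => by
    by_cases hm : m = l
    · rw [hm, h2]
    · exact h1 m m1 m2 hm⟩
  have hj : c j ≠ x j := fun h2 => h l ⟨c, hc, fun m m1 m2 _ => by
    by_cases hm : m = j
    · rw [hm, h2]
    · exact h1 m m1 hm m2⟩
  have hij : i ≠ j := fun h2 => h l ⟨c, hc, fun m m1 m2 _ => h1 m m1 (h2 ▸ m1) m2⟩
  have hil : i ≠ l := fun h2 => h j ⟨c, hc, fun m m1 m2 _ => h1 m m1 m2 (h2 ▸ m1)⟩
  have hjl : j ≠ l := fun h2 => h j ⟨c, hc, fun m m1 m2 _ => h1 m m1 m2 (h2 ▸ m2)⟩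
  have h2 : ∀ a, Near C (update x j a) i j l := fun a =>
    ⟨c, hc, fun m m1 m2 m3 => by rw [update_of_ne m2, h1 m m1 m2 m3]⟩
  have h3 : ∀ a k, k ≠ i → Edge C (update x j a) i k → k ∈ (univ \ {i, j, l} : Finset K) :=
    fun a k h4 h5 => by
      have h6 : k ≠ j := fun h => h5 l (h ▸ h2 a)
      have h7 : k ≠ l := fun h => h5 j (h ▸ (h2 a).swap)
      simp [h4, h6, h7]
  have h4 : ∀ a, a ≠ c j → ∃ k, k ≠ i ∧ Edge C (update x j a) i k := fun a ha =>
    H.exists_edge hq fun m ⟨c', hc', h5⟩ => by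
      obtain rfl := H.uniq c hc c' hc' i j l m fun s s1 s2 s3 s4 => by
        rw [h1 s s1 s2 s3, h5 s s1 s4 s4, update_of_ne s2]
      by_cases hm : j = m
      · exact hl (by rw [h5 l hil.symm (hm ▸ hjl.symm) (hm ▸ hjl.symm), update_of_ne hjl.symm])
      · exact ha (by rw [h5 j hij.symm hm hm, update_self])
  have : Nonempty K := ⟨i⟩
  choose! g hg using h4
  have h5 : ∀ a b k, k ≠ i → Edge C (update x j a) i k → Edge C (update x j b) i k → a = b :=
    fun a b k h6 h7 h8 => H.edge_unique h6.symm hij (fun h => h7 l (h ▸ h2 a)) h7 h8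
  by_contra hne
  rw [← update_eq_self j x] at e e'
  have h6 := card_le_card_of_injOn (s := (univ.erase (c j)).erase (x j))
    (t := ((univ \ {i, j, l}).erase k).erase k') g (fun a ha => by
      have h7 := ne_of_mem_erase (mem_coe.1 ha)
      have h8 := hg a (ne_of_mem_erase (mem_of_mem_erase (mem_coe.1 ha)))
      exact mem_coe.2 (mem_erase.2 ⟨fun h => h7 (h5 _ _ _ hk' (h ▸ h8.2) e'),
        mem_erase.2 ⟨fun h => h7 (h5 _ _ _ hk (h ▸ h8.2) e), h3 a _ h8.1 h8.2⟩⟩))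
    fun a ha b hb hab => by
      have h7 := hg a (ne_of_mem_erase (mem_of_mem_erase (mem_coe.1 ha)))
      exact h5 _ _ _ h7.1 h7.2 (hab ▸ (hg b (ne_of_mem_erase (mem_of_mem_erase (mem_coe.1 hb)))).2)
  have h7 := card_erase_add_one (mem_erase.2 ⟨Ne.symm hne, h3 _ _ hk' e'⟩ : k' ∈ Finset.erase _ k)
  have h8 := card_erase_add_one (h3 _ _ hk e)
  have h9 := card_erase_add_one (mem_erase.2 ⟨hj.symm, mem_univ _⟩ : x j ∈ univ.erase (c j))
  have h10 := card_erase_add_one (mem_univ (c j))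
  have := card_three hij hil hjl
  have := H.card
  rw [card_univ] at h10
  omega

lemma Mds.three_dvd (H : Mds C) (hq : Even (Fintype.card A)) {x : K → A} (S : Finset K)
    (h1 : ∀ i ∈ S, ∀ j, ¬Near C x i j j) (h2 : ∀ i ∈ S, ∃ j l, Near C x i j l)
    (h3 : ∀ i ∈ S, ∀ k, Edge C x i k → k ∈ S)
    (h4 : ∀ i ∈ S, ∀ j ∈ S, ∀ l, Near C x i j l → l ∈ S) : 3 ∣ S.card * (S.card - 2) := by
  classical
  have h5 := dvd_card_of_free Nat.prime_three
    ((S ×ˢ S ×ˢ S).filter fun t => t.1 ≠ t.2.1 ∧ Near C x t.1 t.2.1 t.2.2)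
    (fun t => (t.2.1, t.2.2, t.1)) (fun ⟨i, j, l⟩ ht => by
      simp only [mem_filter, mem_product] at ht ⊢
      exact ⟨⟨ht.1.2.1, ht.1.2.2, ht.1.1⟩, fun h => h1 i ht.1.1 j (by simpa [← h] using ht.2.2),
        ht.2.2.rot⟩) (fun _ _ => rfl) fun ⟨i, j, l⟩ ht h => by
      simp only [mem_filter, Prod.mk.injEq] at ht h
      exact ht.2.1 h.1.symm
  rw [card_eq_sum_card_fiberwise (f := Prod.fst) (t := S) fun t ht =>
    (mem_product.1 (mem_filter.1 ht).1).1, sum_const_nat (m := S.card - 2) fun i hi => ?_] at h5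
  · exact h5
  obtain ⟨k, hk, ek⟩ := H.exists_edge hq (h1 i hi)
  obtain ⟨j, l, hn⟩ := h2 i hi
  rw [show S.card - 2 = S.card - 1 - 1 from rfl, ← card_erase_of_mem hi,
    ← card_erase_of_mem (mem_erase.2 ⟨hk, h3 i hi k ek⟩)]
  refine card_bij (fun t _ => t.2.1) (fun ⟨a, b, d⟩ ht => ?_) (fun ⟨a, b, d⟩ ht ⟨a', b', d'⟩ ht' h => ?_)
    fun b hb => ?_
  · simp only [mem_filter, mem_product] at ht
    obtain ⟨⟨h6, h7, h8⟩, rfl⟩ := ht
    exact mem_erase.2 ⟨fun h => ek d (h ▸ h8), mem_erase.2 ⟨h7.symm, h6.2.1⟩⟩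
  · simp only [mem_filter, mem_product] at ht ht' h
    obtain ⟨⟨-, -, h8⟩, rfl⟩ := ht
    obtain ⟨⟨-, -, h9⟩, rfl⟩ := ht'
    subst h
    rw [H.partner (h1 _ hi _) h8 h9]
  · obtain ⟨h6, h7⟩ := mem_erase.1 hb
    obtain ⟨h7, h8⟩ := mem_erase.1 h7
    obtain ⟨d, hd⟩ : ∃ d, Near C x i b d := by
      by_contra! hc
      exact h6 (H.one_edge hq (h1 i hi) hn h7 hk hc ek)
    exact ⟨(i, b, d), by simp [hi, h8, h4 i hi b h8 d hd, h7.symm, hd], rfl⟩

lemma exists_three (h : 3 ≤ Fintype.card K) : ∃ a b d : K, a ≠ b ∧ a ≠ d ∧ b ≠ d := by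
  obtain ⟨s, -, hs⟩ := exists_subset_card_eq (s := (univ : Finset K)) (n := 3) (by simpa using h)
  obtain ⟨a, b, d, h1, h2, h3, -⟩ := card_eq_three.1 hs
  exact ⟨a, b, d, h1, h2, h3⟩

lemma Mds.case_two (H : Mds C) (hq : Even (Fintype.card A)) (h4 : 4 ≤ Fintype.card A) :
    3 ∣ Fintype.card A * (Fintype.card A - 2) := by
  obtain ⟨a, b, -, hab, -⟩ := exists_three (K := K) (by rw [H.card]; omega)
  have : Nontrivial A := Fintype.one_lt_card_iff_nontrivial.1 (by omega)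
  obtain ⟨c, hc, -⟩ := H.ex (fun _ => Classical.arbitrary A) a a a a
  obtain ⟨u, hu⟩ := exists_ne (c a)
  obtain ⟨v, hv⟩ := exists_ne (c b)
  obtain ⟨x, hx⟩ : ∃ x, x = update (update c a u) b v := ⟨_, rfl⟩
  have x1 : c a ≠ x a := by rw [hx, update_of_ne hab, update_self]; exact hu.symm
  have x2 : c b ≠ x b := by rw [hx, update_self]; exact hv.symm
  have x3 : ∀ m, m ≠ a → m ≠ b → c m = x m := fun m h1 h2 => by
    rw [hx, update_of_ne h2, update_of_ne h1]
  have h1 : ∀ i j, i ≠ a → j ≠ a → ¬Near C x i j b := fun i j hi hj ⟨c', hc', h⟩ => by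
    obtain rfl := H.uniq c hc c' hc' a b i j fun m m1 m2 m3 m4 => by rw [x3 m m1 m2, h m m3 m4 m2]
    exact x1 (h a hi.symm hj.symm hab)
  have h2 : ∀ i j, i ≠ b → j ≠ b → ¬Near C x i j a := fun i j hi hj ⟨c', hc', h⟩ => by
    obtain rfl := H.uniq c hc c' hc' a b i j fun m m1 m2 m3 m4 => by rw [x3 m m1 m2, h m m3 m4 m1]
    exact x2 (h b hi.symm hj.symm hab.symm)
  have h3 : ∀ i, Near C x i a b := fun i => ⟨c, hc, fun m _ => x3 m⟩
  have h5 := card_sdiff_add_card_eq_card (subset_univ ({a, b} : Finset K))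
  rw [card_pair hab, card_univ, H.card, Nat.add_right_cancel_iff] at h5
  rw [← h5]
  have hS : ∀ i, i ∈ (univ \ {a, b} : Finset K) ↔ i ≠ a ∧ i ≠ b := fun i => by simp
  refine H.three_dvd hq (x := x) _ (fun i hi j ⟨c', hc', h⟩ => ?_) (fun i _ => ⟨a, b, h3 i⟩)
    (fun i _ k hk => (hS k).2 ⟨fun h => hk b (h ▸ h3 i), fun h => hk a (h ▸ (h3 i).swap)⟩)
    fun i hi j hj l h => (hS l).2 ⟨fun h' => h2 i j ((hS i).1 hi).2 ((hS j).1 hj).2 (h' ▸ h),
      fun h' => h1 i j ((hS i).1 hi).1 ((hS j).1 hj).1 (h' ▸ h)⟩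
  obtain rfl := H.uniq c hc c' hc' a b i j fun m m1 m2 m3 m4 => by rw [x3 m m1 m2, h m m3 m4 m4]
  by_cases hj : a = j
  · exact x2 (h b ((hS i).1 hi).2.symm (hj ▸ hab.symm) (hj ▸ hab.symm))
  · exact x1 (h a ((hS i).1 hi).1.symm hj hj)

lemma Mds.case_far (H : Mds C) (hq : Even (Fintype.card A)) (h4 : 4 ≤ Fintype.card A) :
    3 ∣ (Fintype.card A + 2) * Fintype.card A := by
  obtain ⟨a, b, d, hab, had, hbd⟩ := exists_three (K := K) (by rw [H.card]; omega)
  have : Nontrivial A := Fintype.one_lt_card_iff_nontrivial.1 (by omega)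
  obtain ⟨c, hc, -⟩ := H.ex (fun _ => Classical.arbitrary A) a a a a
  obtain ⟨w, hw⟩ := exists_ne (c d)
  obtain ⟨x, hx⟩ : ∃ x : A × A → K → A,
    x = fun p => update (update (update c d w) a p.1) b p.2 := ⟨_, rfl⟩
  have x1 : ∀ p, x p a = p.1 := fun p => by rw [hx]; simp [hab]
  have x2 : ∀ p, x p b = p.2 := fun p => by rw [hx]; simp
  have x3 : ∀ p, x p d = w := fun p => by rw [hx]; simp [had.symm, hbd.symm]
  have x4 : ∀ p m, m ≠ a → m ≠ b → m ≠ d → c m = x p m := fun p m h1 h2 h3 => by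
    rw [hx]; simp [h1, h2, h3]
  have x5 : ∀ p p' m, m ≠ a → m ≠ b → x p m = x p' m := fun p p' m h1 h2 => by
    rw [hx]; simp [h1, h2]
  have key : ∃ p : A × A, (∀ i j, ¬Near C (x p) i j j) ∧ ∀ i, ∃ j l, Near C (x p) i j l := by
    by_contra! hcon
    have h1 : ∀ p ∈ univ.erase (c a) ×ˢ univ.erase (c b), ∃ s ∈ (univ \ {a, b, d} : Finset K).sym2,
        ∃ i j, s = s(i, j) ∧ ((i ≠ j ∧ Near C (x p) i j j) ∨ (i = j ∧ ∀ k, Edge C (x p) i k)) := by
      intro p hp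
      obtain ⟨p1, p2⟩ := mem_product.1 hp
      have h2 : ∀ i j, Near C (x p) i j j → ∀ e, (∀ m, m ≠ a → m ≠ b → m ≠ d → m ≠ e → m ≠ i ∧ m ≠ j)
          → False := fun i j ⟨c', hc', h⟩ e he => by
        obtain rfl := H.uniq c hc c' hc' a b d e fun m m1 m2 m3 m4 => by
          rw [x4 p m m1 m2 m3, h m (he m m1 m2 m3 m4).1 (he m m1 m2 m3 m4).2 (he m m1 m2 m3 m4).2]
        have h3 := mt (fun t : a ≠ i ∧ a ≠ j => (h a t.1 t.2 t.2).trans (x1 p)) (ne_of_mem_erase p1).symm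
        have h5 := mt (fun t : b ≠ i ∧ b ≠ j => (h b t.1 t.2 t.2).trans (x2 p)) (ne_of_mem_erase p2).symm
        have h6 := mt (fun t : d ≠ i ∧ d ≠ j => (h d t.1 t.2 t.2).trans (x3 p)) hw.symm
        grind
      by_cases h : ∃ i j, Near C (x p) i j j
      · obtain ⟨i, j, h⟩ := h
        refine ⟨_, mk_mem_sym2_iff.2 ⟨?_, ?_⟩, i, j, rfl, Or.inl ⟨fun h3 => h2 i j h i ?_, h⟩⟩
        · by_contra h3
          exact h2 i j h j (by simp at h3; grind)
        · by_contra h3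
          exact h2 i j h i (by simp at h3; grind)
        · grind
      · obtain ⟨i, hi⟩ := hcon p (by simpa using h)
        have h3 : i ∈ (univ \ {a, b, d} : Finset K) := by
          have h5 : Near C (x p) a b d := ⟨c, hc, x4 p⟩
          simp only [mem_sdiff, mem_univ, mem_insert, mem_singleton, true_and, not_or]
          exact ⟨fun t => hi b d (t ▸ h5), fun t => hi d a (t ▸ h5.rot), fun t => hi a b (t ▸ h5.rot.rot)⟩
        exact ⟨_, mk_mem_sym2_iff.2 ⟨h3, h3⟩, i, i, rfl, Or.inr ⟨rfl, hi⟩⟩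
    have : Nonempty (Sym2 K) := ⟨s(a, a)⟩
    choose! f hf h2 using h1
    have h3 := card_le_card_of_injOn f hf fun p hp p' hp' h => by
      obtain ⟨i, j, e1, h5⟩ := h2 p hp
      obtain ⟨i', j', e2, h6⟩ := h2 p' hp'
      have h7 := hf p hp
      rw [e1, mk_mem_sym2_iff] at h7
      simp only [mem_sdiff, mem_univ, mem_insert, mem_singleton, true_and, not_or] at h7
      have h8 := Sym2.eq_iff.1 (e1.symm.trans (h.trans e2))
      rcases h5 with ⟨h5, c1, hc1, h9⟩ | ⟨rfl, h9⟩ <;> rcases h6 with ⟨h6, c2, hc2, h10⟩ | ⟨rfl, h10⟩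
      · have h11 : ∀ m, m ≠ i → m ≠ j → c2 m = x p' m := fun m m1 m2 => by
          rcases h8 with ⟨rfl, rfl⟩ | ⟨rfl, rfl⟩
          exacts [h10 m m1 m2 m2, h10 m m2 m1 m1]
        obtain rfl := H.uniq c1 hc1 c2 hc2 a b i j fun m m1 m2 m3 m4 => by
          rw [h9 m m3 m4 m4, h11 m m3 m4, x5 p p' m m1 m2]
        refine Prod.ext ?_ ?_
        · rw [← x1, ← x1, ← h9 a (Ne.symm h7.1.1) (Ne.symm h7.2.1) (Ne.symm h7.2.1),
            h11 a (Ne.symm h7.1.1) (Ne.symm h7.2.1)]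
        · rw [← x2, ← x2, ← h9 b (Ne.symm h7.1.2.1) (Ne.symm h7.2.2.1) (Ne.symm h7.2.2.1),
            h11 b (Ne.symm h7.1.2.1) (Ne.symm h7.2.2.1)]
      · grind
      · grind
      · obtain rfl : i = i' := by grind
        have h11 : ∀ s t, (∀ m, m ≠ s → m ≠ t → x p m = x p' m) → i ≠ s → i ≠ t → s ≠ t →
            x p t = x p' t := fun s t h12 h13 h14 h15 => by
          refine H.edge_unique (x := x p) h13 h14 h15 (by simpa using h9 s) fun l ⟨c', hc', h16⟩ =>
            h10 s l ⟨c', hc', fun m m1 m2 m3 => ?_⟩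
          rw [h16 m m1 m2 m3]
          by_cases hm : m = t
          · rw [hm, update_self]
          · rw [update_of_ne hm, h12 m m2 hm]
        exact Prod.ext (by rw [← x1, ← x1, h11 b a (fun m m1 m2 => x5 p p' m m2 m1) h7.1.2.1 h7.1.1 hab.symm])
          (by rw [← x2, ← x2, h11 a b (x5 p p') h7.1.1 h7.1.2.1 hab])
    have h5 := card_three hab had hbd
    rw [card_product, card_erase_of_mem (mem_univ _), card_erase_of_mem (mem_univ _), card_univ,
      card_sym2, Nat.choose_two_right, Nat.le_div_iff_mul_le two_pos] at h3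
    obtain ⟨q, hq⟩ := Nat.exists_eq_add_of_le' h4
    rw [H.card, hq] at h5
    rw [hq, show (univ \ {a, b, d} : Finset K).card = q + 3 by omega] at h3
    simp only [show q + 4 - 1 = q + 3 from rfl] at h3
    nlinarith
  obtain ⟨p, h1, h2⟩ := key
  simpa [H.card] using H.three_dvd hq (x := x p) univ (fun i _ => h1 i) (fun i _ => h2 i)
    (fun _ _ _ _ => mem_univ _) fun _ _ _ _ _ _ => mem_univ _

theorem Mds.three_dvd_card (H : Mds C) (hq : Even (Fintype.card A)) (h4 : 4 ≤ Fintype.card A) :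
    3 ∣ Fintype.card A := by
  rcases (Nat.prime_three.dvd_mul).1 (H.case_two hq h4) with h | h
  · exact h
  · rcases (Nat.prime_three.dvd_mul).1 (H.case_far hq h4) with h' | h' <;> omega

end Pool.Agent.Lib.MP_deca50_lc
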